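import Mathlib
set_option linter.style.longLine false
namespace Pool.Agent.H.MP_5d23e6_lc
open Set Filter Topology Cardinal

open Classical in
/-- `|A ∩ n|`. -/
noncomputable def cnt (A : Set ℕ) (n : ℕ) : ℝ := (Nat.count (· ∈ A) n : ℕ)

/-- The relative density of `S` in `R` exists and equals `ρ`. -/
def HasD (R S : Set ℕ) (ρ : ℝ) : Prop := Tendsto (fun n => cnt (S ∩ R) n / cnt R n) atTop (𝓝 ρ)

/-- The `X`-reaping number for `X ⊆ [0,1]`. -/
noncomputable def rp (X : Set ℝ) : Cardinal.{0} :=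
  sInf {c | ∃ 𝓡 : Set (Set ℕ), #𝓡 = c ∧ (∀ R ∈ 𝓡, R.Infinite) ∧
    ∀ S : Set ℕ, S.Infinite → Sᶜ.Infinite → ∃ R ∈ 𝓡, ¬ ∃ ρ ∈ X, HasD R S ρ}

lemma c0 (A : Set ℕ) : cnt A 0 = 0 := by simp [cnt]

open Classical in
lemma cs (A : Set ℕ) (n : ℕ) : cnt A (n + 1) = cnt A n + if n ∈ A then 1 else 0 := by
  simp [cnt, Nat.count_succ]

lemma cnn (A : Set ℕ) (n : ℕ) : 0 ≤ cnt A n := by simp [cnt]

lemma cmono {A B : Set ℕ} (h : A ⊆ B) (n : ℕ) : cnt A n ≤ cnt B n := by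
  induction n with
  | zero => simp [c0]
  | succ n ih =>
    rw [cs, cs]; refine add_le_add ih ?_
    by_cases x : n ∈ A
    · simp [x, h x]
    · simp only [x, if_false]; split_ifs <;> norm_num

lemma cadd {A B : Set ℕ} (h : Disjoint A B) (n : ℕ) : cnt (A ∪ B) n = cnt A n + cnt B n := by
  induction n with
  | zero => simp [c0]
  | succ n ih =>
    rw [cs, cs, cs, ih]
    by_cases x : n ∈ A <;> by_cases y : n ∈ B
    · exact absurd y (disjoint_left.1 h x)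
    all_goals simp [x, y]; try ring

lemma cinf {A : Set ℕ} (h : A.Infinite) : Tendsto (cnt A) atTop atTop := by
  classical
  refine tendsto_natCast_atTop_atTop.comp (tendsto_atTop_atTop_of_monotone (Nat.count_monotone (· ∈ A)) fun b => ?_)
  exact ⟨_, (Nat.count_nth_of_infinite (p := (· ∈ A)) h b).ge⟩

lemma cfin {A : Set ℕ} (h : A.Finite) : ∃ c, ∀ n, cnt A n ≤ c := by
  classical
  exact ⟨h.toFinset.card, fun n => by simpa [cnt] using Nat.count_le_card (p := (· ∈ A)) h n⟩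

lemma cdiff {A B : Set ℕ} {u N : ℕ} (hu : u ≤ N) (h : ∀ m, u ≤ m → m < N → (m ∈ A ↔ m ∈ B)) :
    |cnt A N - cnt B N| ≤ u := by
  have k : ∀ (C : Set ℕ) n, cnt C n ≤ n := fun C n => by
    classical
    simpa [cnt] using Nat.count_le (· ∈ C)
  have : cnt A N - cnt B N = cnt A u - cnt B u := by
    induction N, hu using Nat.le_induction with
    | base => rfl
    | succ n hn ih =>
      rw [cs, cs, ← ih fun m a b => h m a (b.trans n.lt_succ_self)]
      by_cases x : n ∈ A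
      · simp [x, (h n hn n.lt_succ_self).1 x]
      · simp [x, mt (h n hn n.lt_succ_self).2 x]
  rw [this, abs_le]
  constructor <;> linarith [k A u, k B u, cnn A u, cnn B u]

lemma HasD.inf {R S : Set ℕ} {ρ : ℝ} (hR : R.Infinite) (h : HasD R S ρ) (hρ : 0 < ρ) : (S ∩ R).Infinite := by
  intro hf
  obtain ⟨c, hc⟩ := cfin hf
  have : Tendsto (fun n => c / cnt R n) atTop (𝓝 0) := tendsto_const_nhds.div_atTop (cinf hR)
  exact (le_of_tendsto_of_tendsto' h this fun n => div_le_div_of_nonneg_right (hc n) (cnn _ _)).not_gt hρ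

lemma HasD.add {R S T : Set ℕ} {a b : ℝ} (h : HasD R S a) (k : HasD R T b) (d : Disjoint S T) :
    HasD R (S ∪ T) (a + b) := by
  refine (Tendsto.add h k).congr fun n => ?_
  rw [union_inter_distrib_right, cadd (d.mono inter_subset_left inter_subset_left), add_div]

lemma hasD_univ {R : Set ℕ} (hR : R.Infinite) : HasD R Set.univ 1 := by
  refine tendsto_const_nhds.congr' (((cinf hR).eventually_gt_atTop 0).mono fun n h => ?_)
  simp [h.ne']

lemma HasD.compl {R S : Set ℕ} {a : ℝ} (hR : R.Infinite) (h : HasD R S a) : HasD R Sᶜ (1 - a) := by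
  refine (Tendsto.sub (hasD_univ hR) h).congr fun n => ?_
  have := cadd (A := S ∩ R) (B := Sᶜ ∩ R) (disjoint_compl_right.mono inter_subset_left inter_subset_left) n
  rw [← union_inter_distrib_right, union_compl_self] at this
  rw [this]; ring

lemma HasD.mul {R T S : Set ℕ} {a b : ℝ} (h : HasD R T a) (k : HasD (T ∩ R) S b) : HasD R (S ∩ T) (b * a) := by
  refine (Tendsto.mul k h).congr fun n => ?_
  rw [inter_assoc]
  by_cases z : cnt (T ∩ R) n = 0
  · have : cnt (S ∩ (T ∩ R)) n = 0 := le_antisymm (z ▸ cmono inter_subset_right n) (cnn _ _)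
    simp [this]
  · field_simp

lemma eqd {A B S : Set ℕ} {a b : ℝ} (hA : HasD A S a) (hB : HasD B S b) (u N : ℕ → ℕ) (hu : ∀ k, u k ≤ N k)
    (hN : Tendsto N atTop atTop) (h : ∀ k m, u k ≤ m → m < N k → (m ∈ A ↔ m ∈ B))
    (hs : ∀ k : ℕ, (k + 1 : ℝ) * (u k + 1) ≤ cnt B (N k)) : a = b := by
  have pos : ∀ k, 0 < cnt B (N k) := fun k => lt_of_lt_of_le (by positivity) (hs k)
  have z : ∀ x : ℕ → ℝ, (∀ k, |x k| ≤ u k) → Tendsto (fun k => x k / cnt B (N k)) atTop (𝓝 0) := by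
    intro x hx
    refine squeeze_zero_norm (fun k => ?_) tendsto_one_div_add_atTop_nhds_zero_nat
    rw [norm_div, Real.norm_eq_abs, Real.norm_eq_abs, abs_of_pos (pos k), div_le_div_iff₀ (pos k) (by positivity)]
    nlinarith [hx k, hs k, abs_nonneg (x k), (Nat.cast_nonneg k : (0 : ℝ) ≤ k)]
  have t1 := (z _ fun k => cdiff (A := S ∩ A) (B := S ∩ B) (hu k) fun m i j => and_congr_right fun _ => h k m i j).add
    (hB.comp hN)
  have t2 := (z _ fun k => cdiff (hu k) (h k)).add_const 1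
  have t3 := t1.div t2 (by simp)
  simp only [zero_add, div_one] at t3
  refine tendsto_nhds_unique (hA.comp hN) (t3.congr fun k => ?_)
  have := (pos k).ne'
  simp only [Pi.div_apply, Function.comp]
  rw [div_add_one this, ← add_div, div_div_div_cancel_right₀ this]; simp

lemma mix {R R' : Set ℕ} (h : R.Infinite) (h' : R'.Infinite) : ∃ M : Set ℕ, M.Infinite ∧
    ∀ S a b c, HasD R S a → HasD R' S b → HasD M S c → a = b := by
  have : ∀ k u : ℕ, ∃ N, u < N ∧ (k + 1 : ℝ) * (u + 1) ≤ cnt R N ∧ (k + 1 : ℝ) * (u + 1) ≤ cnt R' N := fun k u =>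
    ((eventually_gt_atTop u).and (((cinf h).eventually_ge_atTop _).and ((cinf h').eventually_ge_atTop _))).exists
  choose F h1 h2 h3 using this
  let n : ℕ → ℕ := fun k => Nat.rec 0 F k
  have sm : StrictMono n := strictMono_nat_of_lt_succ fun k => h1 k (n k)
  let M := {m | ∃ k, n k ≤ m ∧ m < n (k + 1) ∧ if Even k then m ∈ R else m ∈ R'}
  have hM : ∀ k m, n k ≤ m → m < n (k + 1) → (m ∈ M ↔ if Even k then m ∈ R else m ∈ R') := by
    refine fun k m i j => ⟨fun ⟨k', a, b, c⟩ => ?_, fun c => ⟨k, i, j, c⟩⟩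
    have x : k' < k + 1 := sm.lt_iff_lt.1 (a.trans_lt j)
    have y : k < k' + 1 := sm.lt_iff_lt.1 (i.trans_lt b)
    rwa [show k = k' by omega]
  have bd : ∀ (j k : ℕ) {u : ℕ} {x : ℝ}, k ≤ j → (j + 1 : ℝ) * (u + 1) ≤ x → (k + 1 : ℝ) * (u + 1) ≤ x :=
    fun j k u x a b => by
      have : (k : ℝ) ≤ j := by exact_mod_cast a
      exact le_trans (by gcongr) b
  have e1 : ∀ k m, n (2 * k) ≤ m → m < n (2 * k + 1) → (m ∈ M ↔ m ∈ R) := fun k m i j => by
    rw [hM _ m i j]; simp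
  have e2 : ∀ k m, n (2 * k + 1) ≤ m → m < n (2 * k + 1 + 1) → (m ∈ M ↔ m ∈ R') := fun k m i j => by
    rw [hM _ m i j]; simp
  refine ⟨M, fun hf => ?_, fun S a b c ha hb hc => ?_⟩
  · obtain ⟨c, hc⟩ := cfin hf
    obtain ⟨k, hk⟩ := exists_nat_gt c
    have i := abs_le.1 (cdiff (sm.monotone (Nat.le_succ (2 * k))) (e1 k))
    have j := bd (2 * k) k (by omega) (h2 (2 * k) (n (2 * k)))
    have := hc (n (2 * k + 1))
    have l : cnt R (F (2 * k) (n (2 * k))) = cnt R (n (2 * k).succ) := rfl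
    nlinarith [i.1, (Nat.cast_nonneg k : (0 : ℝ) ≤ k), (Nat.cast_nonneg (n (2 * k)) : (0 : ℝ) ≤ _)]
  · have tt : ∀ f : ℕ → ℕ, (∀ k, k ≤ f k) → Tendsto (fun k => n (f k)) atTop atTop := fun f hf =>
      sm.tendsto_atTop.comp (tendsto_atTop_mono hf tendsto_id)
    rw [← eqd hc ha (fun k => n (2 * k)) (fun k => n (2 * k + 1)) (fun k => sm.monotone (Nat.le_succ _))
      (tt (fun k => 2 * k + 1) fun k => by omega) e1 fun k => bd (2 * k) k (by omega) (h2 _ _)]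
    exact eqd hc hb (fun k => n (2 * k + 1)) (fun k => n (2 * k + 1 + 1)) (fun k => sm.monotone (Nat.le_succ (2 * k + 1)))
      (tt (fun k => 2 * k + 1 + 1) fun k => by omega) e2 fun k => bd (2 * k + 1) k (by omega) (h3 _ _)

/-- finitely many infinite sets are halved by one set -/
lemma finhalf (𝓡 : Set (Set ℕ)) (hf : 𝓡.Finite) (h : ∀ R ∈ 𝓡, R.Infinite) :
    ∃ S, ∀ R ∈ 𝓡, HasD R S (1 / 2) := by
  classical
  have := hf.to_subtype
  have := Fintype.ofFinite 𝓡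
  let ty : ℕ → (𝓡 → Prop) := fun m R => m ∈ R.1
  let S := {m | Even (Nat.count (fun m' => ty m' = ty m) m)}
  have at1 : ∀ t n, 2 * cnt (S ∩ {m | ty m = t}) n - cnt {m | ty m = t} n =
      if Even (Nat.count (fun m' => ty m' = t) n) then 0 else 1 := by
    intro t n
    induction n with
    | zero => simp [c0]
    | succ n ih =>
      rw [cs, cs, Nat.count_succ]
      by_cases x : ty n = t
      · subst x
        by_cases y : Even (Nat.count (fun m' => ty m' = ty n) n)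
        · have : n ∈ S := y
          simp only [y, if_true] at ih
          simp [this, Nat.even_add_one, y]; linarith
        · have : n ∉ S := y
          simp only [y, if_false] at ih
          simp [this, Nat.even_add_one, y]; linarith
      · simp [x, ih]
  have sm : ∀ (R : 𝓡) (A : Set ℕ) n, cnt (A ∩ R.1) n = ∑ t : 𝓡 → Prop, if t R then cnt (A ∩ {m | ty m = t}) n else 0 := by
    intro R A n
    induction n with
    | zero => simp [c0]
    | succ n ih =>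
      have : ∀ t : 𝓡 → Prop, (if t R then cnt (A ∩ {m | ty m = t}) (n + 1) else 0) =
          (if t R then cnt (A ∩ {m | ty m = t}) n else 0) + if ty n = t then (if n ∈ A ∩ R.1 then 1 else 0) else 0 := by
        intro t
        rw [cs]
        by_cases x : ty n = t
        · subst x; by_cases y : n ∈ R.1 <;> simp [ty, y]
        · simp [x]
      rw [cs, ih, Finset.sum_congr rfl fun t _ => this t, Finset.sum_add_distrib]; simp
  refine ⟨S, fun R hR => ?_⟩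
  have bd : ∀ n, |2 * cnt (S ∩ R) n - cnt R n| ≤ Fintype.card (𝓡 → Prop) := by
    intro n
    have := sm ⟨R, hR⟩ Set.univ n
    simp only [univ_inter] at this
    rw [sm ⟨R, hR⟩ S n, this, Finset.mul_sum, ← Finset.sum_sub_distrib]
    refine (Finset.abs_sum_le_sum_abs _ _).trans ((Finset.sum_le_card_nsmul _ _ 1 fun t _ => ?_).trans (by simp))
    split_ifs
    · rw [at1]; split_ifs <;> simp
    · simp
  have t : Tendsto (fun n => (2 * cnt (S ∩ R) n - cnt R n) / cnt R n) atTop (𝓝 0) := by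
    refine squeeze_zero_norm (fun n => ?_) (tendsto_const_nhds.div_atTop (a := (Fintype.card (𝓡 → Prop) : ℝ))
      (cinf (h R hR)))
    rw [norm_div, Real.norm_eq_abs, Real.norm_eq_abs, abs_of_nonneg (cnn R n)]
    exact div_le_div_of_nonneg_right (bd n) (cnn _ _)
  have := (t.add_const 1).div_const 2
  rw [zero_add] at this
  refine this.congr' (((cinf (h R hR)).eventually_gt_atTop 0).mono fun n x => ?_)
  have := x.ne'
  field_simp; ring

theorem half {κ : Cardinal.{0}} (hκ : ℵ₀ ≤ κ)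
    (H : ∀ 𝓕 : Set (Set ℕ), #𝓕 ≤ κ → (∀ R ∈ 𝓕, R.Infinite) → ∃ S, ∀ R ∈ 𝓕, ∃ ρ ∈ Ioo (0 : ℝ) 1, HasD R S ρ)
    (𝓡 : Set (Set ℕ)) (h1 : #𝓡 ≤ κ) (h2 : ∀ R ∈ 𝓡, R.Infinite) : ∃ S, ∀ R ∈ 𝓡, HasD R S (1 / 2) := by
  classical
  have A : ∀ 𝓕 : Set (Set ℕ), #𝓕 ≤ κ → (∀ R ∈ 𝓕, R.Infinite) →
      ∃ S, ∃ ρ : ℝ, 0 < ρ ∧ ρ ≤ 1 / 2 ∧ ∀ R ∈ 𝓕, HasD R S ρ := by
    intro 𝓕 a b
    rcases 𝓕.eq_empty_or_nonempty with rfl | ⟨R0, h0⟩
    · exact ⟨∅, 1 / 2, by norm_num, le_rfl, by simp⟩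
    choose M m1 m2 using fun R : 𝓕 => mix (b R0 h0) (b R R.2)
    obtain ⟨S, hS⟩ := H (𝓕 ∪ range M) ((mk_union_le _ _).trans ((add_le_add a (mk_range_le.trans a)).trans
      (add_eq_self hκ).le)) (by rintro R (h | ⟨R, rfl⟩); exacts [b R h, m1 R])
    obtain ⟨ρ, r1, r2⟩ := hS R0 (Or.inl h0)
    have : ∀ R ∈ 𝓕, HasD R S ρ := fun R h => by
      obtain ⟨x, -, hx⟩ := hS R (Or.inl h)
      obtain ⟨y, -, hy⟩ := hS _ (Or.inr ⟨⟨R, h⟩, rfl⟩)
      rwa [m2 ⟨R, h⟩ S _ _ _ r2 hx hy]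
    rcases le_total ρ (1 / 2) with c | c
    · exact ⟨S, ρ, r1.1, c, this⟩
    · exact ⟨Sᶜ, 1 - ρ, by linarith [r1.2], by linarith, fun R h => (this R h).compl (b R h)⟩
  obtain ⟨ε, e0, hε⟩ : ∃ ε : ℝ, 0 < ε ∧ ∀ 𝓕 : Set (Set ℕ), #𝓕 ≤ κ → (∀ R ∈ 𝓕, R.Infinite) →
      ∃ S, ∃ ρ : ℝ, ε < ρ ∧ ρ ≤ 1 / 2 ∧ ∀ R ∈ 𝓕, HasD R S ρ := by
    by_contra hc
    push Not at hc
    choose 𝓕 f1 f2 f3 using fun n : ℕ => hc (1 / (n + 1 : ℝ)) (by positivity)
    obtain ⟨S, ρ, r1, r2, r3⟩ := A (⋃ n, 𝓕 n) ((mk_iUnion_le _).trans ((mul_le_mul' (by simpa using hκ)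
      (ciSup_le' f1)).trans (mul_eq_self hκ).le)) fun R h => by obtain ⟨n, h⟩ := mem_iUnion.1 h; exact f2 n R h
    obtain ⟨n, hn⟩ := exists_nat_one_div_lt r1
    obtain ⟨R, i, j⟩ := f3 n S ρ hn r2
    exact j (r3 R (mem_iUnion.2 ⟨n, i⟩))
  let P : Set ℕ × Set ℕ × ℝ × ℝ → Prop := fun q => Disjoint q.1 q.2.1 ∧ 0 < q.2.2.2 ∧ q.2.2.1 ≤ 1 / 2 ∧
    1 / 2 ≤ q.2.2.1 + q.2.2.2 ∧ ∀ R ∈ 𝓡, HasD R q.1 q.2.2.1 ∧ HasD R q.2.1 q.2.2.2
  have step : ∀ q : {q // P q}, ∃ q' : {q // P q}, q.1.1 ⊆ q'.1.1 ∧ q'.1.1 ∪ q'.1.2.1 ⊆ q.1.1 ∪ q.1.2.1 ∧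
      q'.1.2.2.2 ≤ (1 - ε) * q.1.2.2.2 := by
    rintro ⟨⟨U, T, υ, τ⟩, d, t0, u1, u2, hd⟩
    simp only at d t0 u1 u2 hd
    obtain ⟨S, ρ, r1, r2, r3⟩ := hε ((T ∩ ·) '' 𝓡) (mk_image_le.trans h1)
      (by rintro _ ⟨R, h, rfl⟩; exact (hd R h).2.inf (h2 R h) t0)
    have k1 : ∀ R ∈ 𝓡, HasD R (S ∩ T) (ρ * τ) := fun R h => (hd R h).2.mul (r3 _ ⟨R, h, rfl⟩)
    have k2 : ∀ R ∈ 𝓡, HasD R (Sᶜ ∩ T) ((1 - ρ) * τ) := fun R h =>
      (hd R h).2.mul ((r3 _ ⟨R, h, rfl⟩).compl ((hd R h).2.inf (h2 R h) t0))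
    have p : 0 < (1 - ρ) * τ := mul_pos (by linarith) t0
    have l : (1 - ρ) * τ ≤ (1 - ε) * τ := by nlinarith
    by_cases c : υ + ρ * τ ≤ 1 / 2
    · refine ⟨⟨(U ∪ S ∩ T, Sᶜ ∩ T, υ + ρ * τ, (1 - ρ) * τ), ?_, p, c, by simp only; linarith,
        fun R h => ⟨(hd R h).1.add (k1 R h) (d.mono_right inter_subset_right), k2 R h⟩⟩, subset_union_left, ?_, l⟩
      · exact disjoint_union_left.2 ⟨d.mono_right inter_subset_right,
          disjoint_compl_right.mono inter_subset_left inter_subset_left⟩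
      · rintro x ((h | h) | h)
        exacts [Or.inl h, Or.inr h.2, Or.inr h.2]
    · exact ⟨⟨(U, Sᶜ ∩ T, υ, (1 - ρ) * τ), d.mono_right inter_subset_right, p, u1, by simp only; nlinarith,
        fun R h => ⟨(hd R h).1, k2 R h⟩⟩, subset_rfl, union_subset_union_right _ inter_subset_right, l⟩
  choose F s1 s2 s3 using step
  let q0 : {q // P q} := ⟨(∅, Set.univ, 0, 1), by simp, one_pos, by norm_num, by norm_num, fun R h =>
    ⟨by simp [HasD, cnt], hasD_univ (h2 R h)⟩⟩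
  let q : ℕ → {q // P q} := fun n => F^[n] q0
  have qs : ∀ n, q (n + 1) = F (q n) := fun n => Function.iterate_succ_apply' _ _ _
  have m1 : Monotone fun n => (q n).1.1 := monotone_nat_of_le_succ fun n => by simp only [qs]; exact s1 _
  have m2 : Antitone fun n => (q n).1.1 ∪ (q n).1.2.1 := antitone_nat_of_succ_le fun n => by simp only [qs]; exact s2 _
  have e1 : ε < 1 := by
    obtain ⟨-, ρ, a, b, -⟩ := hε ∅ (by simp) (by simp); linarith
  have m3 : ∀ n, (q n).1.2.2.2 ≤ (1 - ε) ^ n := fun n => by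
    induction n with
    | zero => simp [q, q0]
    | succ n ih => rw [qs, pow_succ']; exact (s3 _).trans (mul_le_mul_of_nonneg_left ih (by linarith))
  refine ⟨⋃ n, (q n).1.1, fun R hR => tendsto_order.2 ⟨fun a ha => ?_, fun a ha => ?_⟩⟩
  · obtain ⟨n, hn⟩ := exists_pow_lt_of_lt_one (sub_pos.2 ha) (show 1 - ε < 1 by linarith)
    obtain ⟨-, -, -, u2, hd⟩ := (q n).2
    refine ((hd R hR).1.eventually (lt_mem_nhds (show a < (q n).1.2.2.1 by linarith [m3 n]))).mono fun k h =>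
      h.trans_le (div_le_div_of_nonneg_right (cmono (inter_subset_inter_left _ (subset_iUnion (fun n => (q n).1.1) n)) k)
        (cnn _ _))
  · obtain ⟨n, hn⟩ := exists_pow_lt_of_lt_one (sub_pos.2 ha) (show 1 - ε < 1 by linarith)
    obtain ⟨d, -, u1, -, hd⟩ := (q n).2
    refine (((hd R hR).1.add (hd R hR).2 d).eventually (gt_mem_nhds
      (show (q n).1.2.2.1 + (q n).1.2.2.2 < a by linarith [m3 n]))).mono fun k h =>
      lt_of_le_of_lt (div_le_div_of_nonneg_right (cmono (inter_subset_inter_left _ (iUnion_subset fun j => ?_)) k)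
        (cnn _ _)) h
    exact (m1 (le_max_left j n)).trans (subset_union_left.trans (m2 (le_max_right j n)))

end Pool.Agent.H.MP_5d23e6_lc
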